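import Pool.Agent.R972.RJ.Main

/-!
# A time change of Brownian motion whose graph supports no Rajchman measure

There is a deterministic continuous strictly increasing `V : [0,1] → [0,∞)` such that, for every
Brownian motion `B`, almost surely the graph of `t ↦ B (V t)` over `[0,1]` supports no Rajchman
measure.
-/

set_option autoImplicit false

open MeasureTheory ProbabilityTheory Set Pool.Agent.R972.RJ
open scoped NNReal

theorem Pool.Agent.Results.MP_4f24d6_pr.NoRajchman.result :
    ∃ V : ℝ → ℝ, ContinuousOn V (Icc 0 1) ∧ StrictMonoOn V (Icc 0 1) ∧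
      (∀ t ∈ Icc (0 : ℝ) 1, 0 ≤ V t) ∧
      ∀ {Ω : Type*} [MeasurableSpace Ω] (P : Measure Ω) (B : ℝ≥0 → Ω → ℝ), IsBrownianReal B P →
        ∀ᵐ ω ∂P, ∀ μ : Measure (ℝ × ℝ), IsRajchman μ →
          ¬ μ.support ⊆ graph V (fun t => B t ω) :=
  Pool.Agent.R972.RJ.main
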